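import Pool.Agent.H15.KN.Chk

/-!
# Certificate: `z` is a sum of 4 5-th powers of quadratic polynomials
-/

set_option autoImplicit false

namespace Pool.Agent.H15.KN

def pts5 : List G := [
  (64, 0), (54, 35), (27, 58), (-9, 63), (-42, 48), (-61, 18), (-61, -18), (-42, -48), (-9, -63),
  (27, -58), (54, -35)]

def a5 : List T3 := [
  ((-452085641427, -485396573160), (-851640889422, 121812906328), (271069409929, -539312522046)), ((-225444141753, 284346187392), (260156882196, -252019133668), (553335683442, -556568605635)),
  ((-122089589076, 341719106247), (-358514495300, 51600423918), (361942452964, 696381111240)), ((-317503425207, 571967143043), (-382581692393, -779568827910), (-584752792613, -89323397820))]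

def b5_0 : List T3 := [
  ((-1263, 45), (223, -1546), (-25, 5)), ((-766, -290), (1193, -1469), (-678, 119)),
  ((286, -130), (1254, 1505), (-363, 325)), ((-549, -759), (-1558, -292), (-42, -329))]

def b5_1 : List T3 := [
  ((-1324, 127), (323, -1348), (-26, 228)), ((-309, -191), (1582, -1327), (-514, -104)),
  ((-494, 668), (608, 2381), (-709, 308)), ((-514, -796), (-1507, -207), (-48, -112))]

def b5_2 : List T3 := [
  ((-1382, 239), (588, -1228), (282, 195)), ((482, -359), (1993, -1914), (-356, -303)),
  ((180, 762), (1260, 1803), (-712, -25)), ((-441, -877), (-1521, -311), (13, 39))]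

def b5_3 : List T3 := [
  ((-1261, 346), (741, -1318), (198, -77)), ((-63, -1250), (1000, -1097), (123, -322)),
  ((35, 571), (955, 1534), (-673, -294)), ((-426, -917), (-1577, -310), (86, 53))]

def b5_4 : List T3 := [
  ((-1205, 427), (871, -1914), (122, -94)), ((529, -806), (1483, -1742), (213, -297)),
  ((-1096, 734), (1093, 1987), (-428, -773)), ((-356, -1121), (-1597, -422), (-99, -322))]

def b5_5 : List T3 := [
  ((-1116, 355), (856, -1968), (320, 60)), ((758, -638), (1665, -1764), (434, -161)),
  ((-1471, 181), (1061, 2059), (131, -811)), ((-349, -1287), (-1635, -169), (217, -458))]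

def b5_6 : List T3 := [
  ((-1058, 283), (881, -1859), (12, 365)), ((1099, -773), (1311, -1230), (566, -28)),
  ((-643, 236), (466, 1813), (450, -426)), ((-543, -1285), (-1307, 168), (129, -318))]

def b5_7 : List T3 := [
  ((-974, 110), (1223, -1539), (-101, 697)), ((1415, -700), (1641, -678), (680, 53)),
  ((-1303, -1351), (1893, 1875), (745, 384)), ((-514, -1243), (-977, 158), (266, 72))]

def b5_8 : List T3 := [
  ((-1013, -3), (1036, -1222), (-80, 12)), ((46, 688), (1436, -2299), (345, 939)),
  ((-552, -519), (880, 1661), (235, 308)), ((-585, -1186), (-1390, -343), (211, 338))]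

def b5_9 : List T3 := [
  ((-1079, -8), (908, -1352), (-211, -215)), ((774, 310), (1685, -1373), (-14, 955)),
  ((-208, -146), (639, 2050), (13, 388)), ((-742, -1096), (-1791, -455), (204, 173))]

def b5_10 : List T3 := [
  ((-1159, -85), (767, -1450), (74, -134)), ((-67, 330), (1552, -1382), (-522, 668)),
  ((-30, -173), (819, 1803), (-219, 418)), ((-620, -922), (-1816, -365), (-135, 19))]

def b5 : List (List T3) := [
  b5_0, b5_1, b5_2, b5_3, b5_4, b5_5, b5_6, b5_7, b5_8, b5_9, b5_10]

set_option maxRecDepth 100000 in
theorem chk5 : check 3 64 40 14 3 8 18 a5 b5 pts5 = true := by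
  decide +kernel

theorem rep5 : Rep 5 4 := rep_of_check _ _ _ _ _ _ _ _ _ _ chk5

end Pool.Agent.H15.KN
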