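import Pool.Agent.H15.KN.Chk

/-!
# Certificate: `z` is a sum of 6 7-th powers of quadratic polynomials
-/

set_option autoImplicit false

namespace Pool.Agent.H15.KN

def pts7 : List G := [
  (64, 0), (58, 26), (43, 48), (20, 61), (-7, 64), (-32, 55), (-52, 38), (-63, 13), (-63, -13),
  (-52, -38), (-32, -55), (-7, -64), (20, -61), (43, -48), (58, -26)]

def a7 : List T3 := [
  ((-3024017692063, 12829532252074), (-9143257660415, 3298357221735), (1038741210611, 17249188356743)),
  ((-9448496340889, -10651315995900), (3777123321418, 5552879464030), (49009640915, 4391781419264)),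
  ((6859982435230, -11015897880373), (-2248743760251, -5899679355940), (6568761671375, -17062735169008)),
  ((7079540687548, -2426271617624), (6389249476064, -880635057097), (20419518456781, 2582019142310)),
  ((4201686413491, 1151657345088), (-11950923016081, 6902242211115), (-17702277455388, -517833395975)),
  ((-20920961633, -943550596179), (-8314731986126, 19478585925741), (-12286366520703, 7787223910357))]

def b7_0 : List T3 := [
  ((-393, 1547), (-660, -237), (-50, -583)), ((-269, 657), (529, 1369), (-780, 1677)),
  ((1003, -1130), (-175, -70), (-485, 187)), ((1390, 307), (211, -4), (-118, -417)),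
  ((368, 515), (-148, -39), (-27, -143)), ((31, -206), (-609, 526), (-90, -127))]

def b7_1 : List T3 := [
  ((-248, 1643), (-513, -263), (88, -561)), ((-477, 856), (304, 1709), (-1111, 1915)),
  ((912, -1371), (-450, -191), (-674, 131)), ((1577, 361), (252, 164), (-13, -446)),
  ((372, 647), (-41, -273), (28, -204)), ((5, -219), (-802, 413), (-20, -139))]

def b7_2 : List T3 := [
  ((-26, 1484), (-316, -298), (378, -586)), ((-572, 1059), (248, 2004), (-1106, 2217)),
  ((513, -1351), (-721, 67), (-779, 254)), ((1410, 39), (472, 319), (-11, -443)),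
  ((444, 596), (-93, -452), (11, -359)), ((-111, -257), (-943, 574), (25, -202))]

def b7_3 : List T3 := [
  ((175, 1269), (-392, -246), (708, -869)), ((-500, 1493), (684, 2504), (-504, 2728)),
  ((131, -1217), (-346, 429), (-640, 284)), ((624, -278), (817, 404), (-26, -343)),
  ((365, 680), (62, -262), (-68, -745)), ((-306, 270), (-74, 1030), (-9, -719))]

def b7_4 : List T3 := [
  ((-60, 806), (-463, 577), (343, -1119)), ((112, 1589), (1661, 1974), (828, 1576)),
  ((-17, -858), (598, -614), (-355, 28)), ((-181, 605), (1448, 1049), (-19, 364)),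
  ((-534, 1343), (3003, 2021), (287, -1322)), ((145, -365), (176, -111), (-964, 361))]

def b7_5 : List T3 := [
  ((-345, 1288), (-1131, -1534), (2788, 1244)), ((-654, 934), (1471, 396), (-3076, -378)),
  ((1244, -2238), (-118, 3190), (616, 862)), ((-1983, -3659), (-2168, 2971), (-460, -114)),
  ((-762, -1309), (-6071, 3193), (1867, 506)), ((-215, 1065), (12, 3513), (898, -2583))]

def b7_6 : List T3 := [
  ((333, 675), (-709, 269), (-490, -862)), ((230, 2018), (596, 1669), (-1248, 3166)),
  ((-300, -7), (95, -644), (-1368, -679)), ((3499, 335), (-330, -862), (-243, -321)),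
  ((417, 903), (47, -409), (292, -185)), ((286, -182), (-1013, -337), (-235, -187))]

def b7_7 : List T3 := [
  ((-152, 326), (-332, -211), (-203, -100)), ((719, 1380), (981, 1309), (207, 2360)),
  ((817, -55), (-650, 225), (-1037, 662)), ((1369, -845), (47, -514), (-515, -194)),
  ((517, 73), (-732, -560), (-117, -130)), ((-198, -312), (-1036, 573), (-88, -27))]

def b7_8 : List T3 := [
  ((-474, 520), (-69, -447), (-43, 64)), ((510, 1201), (509, 1310), (-113, 1686)),
  ((893, -306), (-623, 349), (-653, 242)), ((1139, -270), (74, -335), (-369, -184)),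
  ((190, 216), (-656, -637), (52, 39)), ((-235, -58), (-934, 287), (139, -38))]

def b7_9 : List T3 := [
  ((-341, 798), (-131, -743), (294, 52)), ((510, 1117), (144, 1549), (-524, 1326)),
  ((674, -330), (-934, 257), (-466, -370)), ((1489, -91), (75, 55), (-168, -272)),
  ((100, 642), (-659, -822), (429, 60)), ((-29, 245), (-1130, -67), (382, -199))]

def b7_10 : List T3 := [
  ((-685, 753), (-122, -585), (133, -122)), ((648, 1157), (210, 2427), (-1185, 1564)),
  ((892, -297), (-645, -89), (-403, -73)), ((1594, 327), (84, 238), (-374, -395)),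
  ((-12, 592), (-300, -500), (164, 250)), ((-295, -89), (-721, 41), (-5, -154))]

def b7_11 : List T3 := [
  ((-846, 776), (-121, -822), (300, -180)), ((568, 782), (760, 2353), (-1167, 1865)),
  ((1059, -314), (-654, 115), (-460, 47)), ((1583, 434), (-74, 243), (-300, -572)),
  ((-260, 806), (-625, -575), (58, 120)), ((-76, 95), (-1164, 133), (194, -372))]

def b7_12 : List T3 := [
  ((-882, 1119), (-628, -1006), (407, -566)), ((430, 528), (1375, 1923), (-700, 2224)),
  ((1226, -652), (-412, 491), (-586, 269)), ((1810, 155), (107, 420), (-442, -669)),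
  ((367, 1153), (-1082, -59), (51, -122)), ((212, 27), (-1329, 806), (-98, -568))]

def b7_13 : List T3 := [
  ((-770, 1337), (-935, -704), (169, -800)), ((139, 472), (1207, 1414), (-452, 1978)),
  ((1163, -871), (-73, 393), (-492, 380)), ((1589, -57), (400, 187), (-427, -544)),
  ((704, 674), (-718, 268), (-53, -245)), ((253, -188), (-879, 1051), (-272, -309))]

def b7_14 : List T3 := [
  ((-624, 1613), (-954, -377), (-67, -783)), ((-93, 582), (915, 1348), (-560, 1865)),
  ((1151, -1088), (-27, 118), (-454, 314)), ((1426, 99), (323, -88), (-299, -479)),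
  ((539, 478), (-370, 182), (-100, -190)), ((89, -269), (-632, 853), (-209, -176))]

def b7 : List (List T3) := [
  b7_0, b7_1, b7_2, b7_3, b7_4, b7_5, b7_6, b7_7, b7_8, b7_9, b7_10, b7_11, b7_12, b7_13, b7_14]

set_option maxRecDepth 100000 in
theorem chk7 : check 5 64 44 16 4 4 22 a7 b7 pts7 = true := by
  decide +kernel

theorem rep7 : Rep 7 6 := rep_of_check _ _ _ _ _ _ _ _ _ _ chk7

end Pool.Agent.H15.KN
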