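import Pool.Agent.H86.Waring.Final
import Pool.Agent.H15.KN.D5
import Pool.Agent.H15.KN.D6
import Pool.Agent.H15.KN.D7
import Pool.Agent.H15.KN.D8
import Pool.Agent.H15.KN.D9
import Pool.Agent.H15.KN.D10
import Pool.Agent.H15.KN.D11
import Pool.Agent.H15.KN.D12
import Pool.Agent.H15.KN.D13
import Pool.Agent.H15.KN.D14
import Pool.Agent.H15.KN.D15

/-!
# `z` is a sum of fewer than `N` `N`-th powers of quadratic polynomials, for every `N ≥ 5`
-/

set_option autoImplicit false

open Polynomial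

namespace Pool.Agent.H15.KN

/-- For `5 ≤ N ≤ 15`: `⌊(2 N + 4) / 3⌋` summands. -/
theorem rep_small {N : ℕ} (hN : 5 ≤ N) (h : N ≤ 15) : Rep N ((2 * N + 4) / 3) := by
  interval_cases N
  · exact rep5
  · exact rep6
  · exact rep7
  · exact rep8
  · exact rep9
  · exact rep10
  · exact rep11
  · exact rep12
  · exact rep13
  · exact rep14
  · exact rep15

theorem rep_all {N : ℕ} (hN : 5 ≤ N) :
    ∃ m : ℕ, 0 < m ∧ m < N ∧ (N ≤ 15 → 3 * m ≤ 2 * N + 4) ∧ Rep N m := by
  rcases Nat.lt_or_ge 15 N with h | h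
  · obtain ⟨p, hp, hs⟩ := Pool.Agent.H86.Waring.quadratics_all N (by omega)
    exact ⟨2 * (N / 3) + 5, by omega, by omega, by omega, p, hp, hs⟩
  · exact ⟨(2 * N + 4) / 3, by omega, by omega, by omega, rep_small hN h⟩

end Pool.Agent.H15.KN
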