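import Pool.Agent.H15.KN.NK

/-!
# Integer certificates for sums of powers of quadratic polynomials
-/

set_option autoImplicit false

open Polynomial

namespace Pool.Agent.H15.KN

abbrev G := ℤ × ℤ

def gadd (x y : G) : G := (x.1 + y.1, x.2 + y.2)
def gsub (x y : G) : G := (x.1 - y.1, x.2 - y.2)
def gmul (x y : G) : G := (x.1 * y.1 - x.2 * y.2, x.1 * y.2 + x.2 * y.1)
def gsm (a : ℤ) (x : G) : G := (a * x.1, a * x.2)
def gn (x : G) : ℕ := x.1.natAbs + x.2.natAbs

def gpow (x : G) : ℕ → G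
  | 0 => (1, 0)
  | n + 1 => gmul (gpow x n) x

abbrev T3 := G × G × G

def t0 : T3 := ((0, 0), (0, 0), (0, 0))

def evq (Q : ℤ) (z : G) (a : T3) : G :=
  gadd (gsm (Q * Q) a.1) (gadd (gsm Q (gmul a.2.1 z)) (gmul a.2.2 (gmul z z)))

def dot : List G → List G → G
  | x :: xs, y :: ys => gadd (gmul x y) (dot xs ys)
  | _, _ => (0, 0)

def rowSum (Den N Q : ℤ) (z : G) (P : List G) (p : ℕ) : ℕ → List (List T3) → ℕ
  | _, [] => 0
  | e, b :: bs => gn (gsub (if e = p then (Den, 0) else (0, 0)) (gsm N (dot P (b.map (evq Q z))))) +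
      rowSum Den N Q z P p (e + 1) bs

def betaIn (Q : ℤ) (z : G) : List T3 → ℕ
  | [] => 0
  | t :: ts => gn (evq Q z t) + betaIn Q z ts

def betaSum (Q : ℤ) (z : G) : List (List T3) → ℕ
  | [] => 0
  | b :: bs => betaIn Q z b + betaSum Q z bs

def allI (f : ℕ → G → Bool) : ℕ → List G → Bool
  | _, [] => true
  | p, z :: zs => f p z && allI f (p + 1) zs

def chkP (n : ℕ) (Q D E Den : ℤ) (ρ β : ℕ) (R : ℤ) (A : List T3) (B : List (List T3)) (p : ℕ)
    (z : G) : Bool :=
  (A.all fun a => decide (2 * (gn (evq Q z a) : ℤ) ≤ (2 * (ρ : ℤ) - 1) * D)) &&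
  decide ((gn (gsub (gsm Q (dot (A.map fun a => gpow (evq Q z a) (n + 1)) (A.map (evq Q z))))
    (gsm (D ^ (n + 2)) z)) : ℤ) * (2 * R) ≤ Q * D ^ (n + 2)) &&
  decide ((rowSum Den (n + 2) Q z (A.map fun a => gpow (evq Q z a) (n + 1)) p 0 B : ℤ) * 4
    ≤ Den) &&
  decide ((betaSum Q z B : ℤ) ≤ (β : ℤ) * E)

/-- The certificate. -/
def check (n : ℕ) (Q s b ρ β R : ℕ) (A : List T3) (B : List (List T3)) (pts : List G) : Bool :=
  decide (0 < Q) && decide (B.length = pts.length) && decide (2 * (n + 2) < pts.length) &&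
  decide pts.Nodup && (B.all fun x => decide (x.length = A.length)) &&
  decide (2 * β ≤ 2 ^ R) && decide (4 * ((n + 2) * (n + 1) * ρ ^ n * β * β) ≤ 2 ^ R) &&
  allI (chkP n Q (2 ^ s * (Q * Q)) (2 ^ b * (Q * Q)) ((2 ^ s * (Q * Q)) ^ (n + 1) *
    (2 ^ b * (Q * Q))) ρ β (2 ^ R) A B) 0 pts

/-! ### Semantics -/

noncomputable def tc (x : G) : ℂ := (x.1 : ℂ) + (x.2 : ℂ) * Complex.I

theorem tc_add (x y : G) : tc (gadd x y) = tc x + tc y := by
  simp only [tc, gadd]; push_cast; ring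

theorem tc_sub (x y : G) : tc (gsub x y) = tc x - tc y := by
  simp only [tc, gsub]; push_cast; ring

theorem tc_mul (x y : G) : tc (gmul x y) = tc x * tc y := by
  simp only [tc, gmul]; push_cast
  linear_combination (-(x.2 : ℂ) * y.2) * Complex.I_mul_I

theorem tc_sm (a : ℤ) (x : G) : tc (gsm a x) = a * tc x := by
  simp only [tc, gsm]; push_cast; ring

theorem tc_zero : tc (0, 0) = 0 := by simp [tc]

theorem tc_int (a : ℤ) : tc (a, 0) = a := by simp [tc]

theorem tc_pow (x : G) (n : ℕ) : tc (gpow x n) = tc x ^ n := by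
  induction n with
  | zero => simp [gpow, tc]
  | succ n ih => rw [gpow, tc_mul, ih, pow_succ]

theorem tc_norm (x : G) : ‖tc x‖ ≤ gn x := by
  have h := norm_add_le ((x.1 : ℂ)) ((x.2 : ℂ) * Complex.I)
  have h1 : ‖((x.1 : ℤ) : ℂ)‖ = (x.1.natAbs : ℝ) := by
    rw [Complex.norm_intCast, Nat.cast_natAbs, Int.cast_abs]
  have h2 : ‖((x.2 : ℤ) : ℂ)‖ = (x.2.natAbs : ℝ) := by
    rw [Complex.norm_intCast, Nat.cast_natAbs, Int.cast_abs]
  rw [norm_mul, Complex.norm_I, mul_one, h1, h2] at h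
  simpa [tc, gn] using h

theorem tc_inj {x y : G} (h : tc x = tc y) : x = y := by
  have h1 := congrArg Complex.re h
  have h2 := congrArg Complex.im h
  simp only [tc, Complex.add_re, Complex.add_im, Complex.mul_re, Complex.mul_im,
    Complex.intCast_re, Complex.intCast_im, Complex.I_re, Complex.I_im, mul_zero, mul_one,
    sub_zero, add_zero, zero_add] at h1 h2
  exact Prod.ext (by exact_mod_cast h1) (by exact_mod_cast h2)

theorem tc_evq (Q : ℤ) (z : G) (a : T3) : tc (evq Q z a) =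
    (Q : ℂ) * Q * tc a.1 + Q * (tc a.2.1 * tc z) + tc a.2.2 * (tc z * tc z) := by
  simp only [evq, tc_add, tc_sm, tc_mul]
  push_cast; ring

theorem tc_dot (f g : T3 → G) : ∀ (A b : List T3), b.length = A.length →
    tc (dot (A.map f) (b.map g)) =
      ∑ i : Fin A.length, tc (f (A.getD i t0)) * tc (g (b.getD i t0)) := by
  intro A
  induction A with
  | nil =>
    intro b hb
    have : b = [] := List.length_eq_zero_iff.1 hb
    subst this
    simp [dot, tc_zero]
  | cons x A ih =>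
    intro b hb
    rcases b with _ | ⟨y, b⟩
    · simp at hb
    · have hb' : b.length = A.length := by simpa using hb
      simp only [List.map_cons, dot, tc_add, tc_mul]
      rw [ih b hb', List.length_cons, Fin.sum_univ_succ]
      simp

theorem rowSum_eq (Den N Q : ℤ) (z : G) (P : List G) (p : ℕ) : ∀ (bs : List (List T3)) (e0 : ℕ),
    ((rowSum Den N Q z P p e0 bs : ℕ) : ℝ) = ∑ e : Fin bs.length,
      (gn (gsub (if e0 + (e : ℕ) = p then (Den, 0) else (0, 0))
        (gsm N (dot P ((bs.getD e []).map (evq Q z))))) : ℝ) := by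
  intro bs
  induction bs with
  | nil => intro e0; simp [rowSum]
  | cons b bs ih =>
    intro e0
    rw [rowSum, List.length_cons, Fin.sum_univ_succ, Nat.cast_add, ih (e0 + 1)]
    congr 1
    refine Finset.sum_congr rfl fun e _ => ?_
    have : e0 + 1 + (e : ℕ) = e0 + ((Fin.succ e : Fin (bs.length + 1)) : ℕ) := by
      rw [Fin.val_succ]; ring
    rw [this]
    simp

theorem betaIn_eq (Q : ℤ) (z : G) : ∀ (ts : List T3),
    ((betaIn Q z ts : ℕ) : ℝ) = ∑ i : Fin ts.length, (gn (evq Q z (ts.getD i t0)) : ℝ) := by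
  intro ts
  induction ts with
  | nil => simp [betaIn]
  | cons t ts ih =>
    rw [betaIn, List.length_cons, Fin.sum_univ_succ, Nat.cast_add, ih]
    simp

theorem betaSum_eq (Q : ℤ) (z : G) : ∀ (bs : List (List T3)),
    ((betaSum Q z bs : ℕ) : ℝ) = ∑ e : Fin bs.length, ((betaIn Q z (bs.getD e []) : ℕ) : ℝ) := by
  intro bs
  induction bs with
  | nil => simp [betaSum]
  | cons b bs ih =>
    rw [betaSum, List.length_cons, Fin.sum_univ_succ, Nat.cast_add, ih]
    simp

theorem allI_spec (f : ℕ → G → Bool) : ∀ (l : List G) (p0 : ℕ), allI f p0 l = true →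
    ∀ j < l.length, f (p0 + j) (l.getD j (0, 0)) = true := by
  intro l
  induction l with
  | nil => intro p0 _ j hj; simp at hj
  | cons z zs ih =>
    intro p0 h j hj
    rw [allI, Bool.and_eq_true] at h
    rcases j with _ | j
    · simpa using h.1
    · have h2 := ih (p0 + 1) h.2 j (by simpa using hj)
      have e : p0 + 1 + j = p0 + (j + 1) := by ring
      rw [e] at h2
      simpa using h2

/-- `z` is a sum of `k` `N`-th powers of polynomials of degree at most two. -/
def Rep (N k : ℕ) : Prop :=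
  ∃ f : Fin k → ℂ[X], (∀ i, (f i).natDegree ≤ 2) ∧ ∑ i, f i ^ N = X

theorem rep_of_check (n Q s b ρ β R : ℕ) (A : List T3) (B : List (List T3)) (pts : List G)
    (h : check n Q s b ρ β R A B pts = true) : Rep (n + 2) A.length := by
  simp only [check, Bool.and_eq_true, decide_eq_true_eq] at h
  obtain ⟨⟨⟨⟨⟨⟨⟨hQ, hBl⟩, hdeg⟩, hnd⟩, hBA⟩, hβR⟩, hR⟩, hall⟩ := h
  have hQ' : (0 : ℝ) < (Q : ℝ) := by exact_mod_cast hQ
  have hQc : (Q : ℂ) ≠ 0 := by exact_mod_cast hQ.ne'
  have hlen : ∀ e : Fin B.length, (B.getD e []).length = A.length := by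
    intro e
    rw [List.getD_eq_getElem _ _ e.2]
    have := List.all_eq_true.1 hBA (B[(e : ℕ)]'e.2) (List.getElem_mem _)
    simpa using this
  -- real denominators
  set Dr : ℝ := 2 ^ s * (Q * Q) with hDr
  set Er : ℝ := 2 ^ b * (Q * Q) with hEr
  have hDr0 : 0 < Dr := by rw [hDr]; positivity
  have hEr0 : 0 < Er := by rw [hEr]; positivity
  have hDc : (Dr : ℂ) ≠ 0 := by exact_mod_cast hDr0.ne'
  have hEc : (Er : ℂ) ≠ 0 := by exact_mod_cast hEr0.ne'
  let z : Fin B.length → G := fun p => pts.getD p (0, 0)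
  let c : Fin A.length → Fin B.length → ℂ := fun i p =>
    tc (evq Q (z p) (A.getD i t0)) / Dr
  let l : Fin A.length → Fin B.length → Fin B.length → ℂ := fun i p e =>
    tc (evq Q (z p) ((B.getD e []).getD i t0)) / Er
  have hchk : ∀ p : Fin B.length, chkP n Q (2 ^ s * (Q * Q)) (2 ^ b * (Q * Q))
      ((2 ^ s * (Q * Q)) ^ (n + 1) * (2 ^ b * (Q * Q))) ρ β (2 ^ R) A B p (z p) = true := by
    intro p
    have := allI_spec _ pts 0 hall p (by rw [← hBl]; exact p.2)
    rw [zero_add] at this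
    exact this
  simp only [chkP, Bool.and_eq_true, decide_eq_true_eq] at hchk
  have h2R : (0 : ℝ) < 2 ^ R := by positivity
  have hmain := nk (n := n) c l (fun p => tc (z p) / Q) (ρ : ℝ) (β : ℝ) (1 / 2 ^ R) (by positivity)
    (Nat.cast_nonneg _) (Nat.cast_nonneg _) ?_ ?_ ?_ ?_ ?_
  · obtain ⟨u, hu⟩ := hmain
    let q : Fin A.length → (T3 → G) → ℂ := fun i g =>
      tc (g (A.getD i t0)) / 2 ^ s + ∑ e : Fin B.length, u e * (tc (g ((B.getD e []).getD i t0)) /
        2 ^ b)
    let F : Fin A.length → ℂ[X] := fun i =>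
      C (q i fun a => a.1) + C (q i fun a => a.2.1) * X + C (q i fun a => a.2.2) * X ^ 2
    have hF : ∀ i, (F i).natDegree ≤ 2 := by
      intro i
      simp only [F]
      compute_degree
    refine ⟨F, hF, ?_⟩
    have hev : ∀ i p, (F i).eval (tc (z p) / Q) = c i p + ∑ e, u e * l i p e := by
      intro i p
      simp only [F, eval_add, eval_mul, eval_C, eval_X, eval_pow, q, c, l, tc_evq]
      have h1 : ∀ a : T3, (((Q : ℤ) : ℂ) * ((Q : ℤ) : ℂ) * tc a.1 + ((Q : ℤ) : ℂ) *
          (tc a.2.1 * tc (z p)) + tc a.2.2 * (tc (z p) * tc (z p))) / (Dr : ℂ) =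
          tc a.1 / 2 ^ s + tc a.2.1 / 2 ^ s * (tc (z p) / Q) +
            tc a.2.2 / 2 ^ s * (tc (z p) / Q) ^ 2 := by
        intro a
        rw [hDr]
        push_cast
        field_simp
      have h2 : ∀ a : T3, (((Q : ℤ) : ℂ) * ((Q : ℤ) : ℂ) * tc a.1 + ((Q : ℤ) : ℂ) *
          (tc a.2.1 * tc (z p)) + tc a.2.2 * (tc (z p) * tc (z p))) / (Er : ℂ) =
          tc a.1 / 2 ^ b + tc a.2.1 / 2 ^ b * (tc (z p) / Q) +
            tc a.2.2 / 2 ^ b * (tc (z p) / Q) ^ 2 := by
        intro a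
        rw [hEr]
        push_cast
        field_simp
      simp only [h1, h2, mul_add, Finset.sum_add_distrib, add_mul, Finset.sum_mul]
      have h3 : ∀ g : T3 → G, ∀ w : ℂ, ∑ e : Fin B.length, u e *
          (tc (g ((B.getD e []).getD i t0)) / 2 ^ b) * w = ∑ e : Fin B.length, u e *
          (tc (g ((B.getD e []).getD i t0)) / 2 ^ b * w) :=
        fun g w => Finset.sum_congr rfl fun e _ => by ring
      have h4 := h3 (fun a => a.2.1) (tc (z p) / Q)
      have h5 := h3 (fun a => a.2.2) ((tc (z p) / Q) ^ 2)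
      rw [h4, h5]
      ring
    have hinj : Function.Injective fun p : Fin B.length => tc (z p) / (Q : ℂ) := by
      intro p p' hpp
      have h1 : tc (z p) = tc (z p') := by
        have := congrArg (fun w => w * (Q : ℂ)) hpp
        simpa [div_mul_cancel₀ _ hQc] using this
      have h2 := tc_inj h1
      simp only [z] at h2
      rw [List.getD_eq_getElem _ _ (by rw [← hBl]; exact p.2),
        List.getD_eq_getElem _ _ (by rw [← hBl]; exact p'.2)] at h2
      exact Fin.ext ((hnd.getElem_inj_iff).1 h2)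
    refine eq_of_natDegree_lt_card_of_eval_eq _ _ hinj (fun p => ?_) ?_
    · rw [eval_finset_sum, eval_X]
      refine (Finset.sum_congr rfl fun i _ => ?_).trans (hu p)
      rw [eval_pow, hev]
    · rw [Fintype.card_fin, hBl]
      refine lt_of_le_of_lt ?_ hdeg
      refine max_le ?_ (by rw [natDegree_X]; omega)
      refine natDegree_sum_le_of_forall_le _ _ fun i _ => ?_
      refine natDegree_pow_le.trans ?_
      have := hF i
      nlinarith
  · -- `hc`
    intro i p
    have h1 := List.all_eq_true.1 (hchk p).1.1.1 (A.getD i t0) (by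
      rw [List.getD_eq_getElem _ _ i.2]; exact List.getElem_mem _)
    simp only [decide_eq_true_eq] at h1
    have h2 : (2 : ℝ) * (gn (evq Q (z p) (A.getD i t0)) : ℝ) ≤ (2 * ρ - 1) * Dr := by
      have h3 : ((2 * (gn (evq Q (z p) (A.getD i t0)) : ℤ) : ℤ) : ℝ) ≤
        (((2 * (ρ : ℤ) - 1) * (2 ^ s * (Q * Q)) : ℤ) : ℝ) := by exact_mod_cast h1
      rw [hDr]
      push_cast at h3
      exact h3
    have h4 : ‖c i p‖ ≤ (ρ : ℝ) - 1 / 2 := by
      simp only [c]
      rw [norm_div, Complex.norm_real, Real.norm_of_nonneg hDr0.le, div_le_iff₀ hDr0]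
      have := tc_norm (evq Q (z p) (A.getD i t0))
      nlinarith
    have h5 : (β : ℝ) * (1 / 2 ^ R) ≤ 1 / 2 := by
      rw [mul_one_div, div_le_iff₀ h2R]
      have : ((2 * β : ℕ) : ℝ) ≤ ((2 ^ R : ℕ) : ℝ) := by exact_mod_cast hβR
      push_cast at this
      linarith
    linarith
  · -- `hβ`
    intro p
    have h1 := (hchk p).2
    have h2 : ((betaSum Q (z p) B : ℕ) : ℝ) ≤ β * Er := by
      have h3 : (((betaSum Q (z p) B : ℕ) : ℤ) : ℝ) ≤ (((β : ℤ) * (2 ^ b * (Q * Q)) : ℤ) : ℝ) := by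
        exact_mod_cast h1
      rw [hEr]
      push_cast at h3
      exact h3
    rw [betaSum_eq] at h2
    rw [Finset.sum_comm]
    have h4 : ∑ e : Fin B.length, ∑ i, ‖l i p e‖ ≤ ∑ e : Fin B.length,
        ((betaIn Q (z p) (B.getD e []) : ℕ) : ℝ) / Er := by
      refine Finset.sum_le_sum fun e _ => ?_
      rw [betaIn_eq, Finset.sum_div]
      have h5 : ∀ i : Fin A.length, ‖l i p e‖ ≤
          (gn (evq Q (z p) ((B.getD e []).getD i t0)) : ℝ) / Er := by
        intro i
        simp only [l]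
        rw [norm_div, Complex.norm_real, Real.norm_of_nonneg hEr0.le]
        exact div_le_div_of_nonneg_right (tc_norm _) hEr0.le
      refine (Finset.sum_le_sum fun i _ => h5 i).trans (le_of_eq ?_)
      rw [Fin.sum_univ_eq_sum_range (fun i => (gn (evq Q (z p) ((B.getD e []).getD i t0)) : ℝ) / Er)
        A.length, Fin.sum_univ_eq_sum_range
        (fun i => (gn (evq Q (z p) ((B.getD e []).getD i t0)) : ℝ) / Er) (B.getD e []).length,
        hlen e]
    refine h4.trans ?_
    rw [← Finset.sum_div, div_le_iff₀ hEr0]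
    exact h2
  · -- `hE`
    intro p
    have h1 := (hchk p).1.2
    have hDen : (0 : ℝ) < Dr ^ (n + 1) * Er := by positivity
    have h2 : ((rowSum ((2 ^ s * (Q * Q)) ^ (n + 1) * (2 ^ b * (Q * Q))) (n + 2) Q (z p)
        (A.map fun a => gpow (evq Q (z p) a) (n + 1)) p 0 B : ℕ) : ℝ) * 4 ≤
        Dr ^ (n + 1) * Er := by
      have h3 : ((((rowSum ((2 ^ s * (Q * Q)) ^ (n + 1) * (2 ^ b * (Q * Q))) (n + 2) Q (z p)
        (A.map fun a => gpow (evq Q (z p) a) (n + 1)) p 0 B : ℕ) : ℤ) * 4 : ℤ) : ℝ) ≤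
        (((2 ^ s * (Q * Q)) ^ (n + 1) * (2 ^ b * (Q * Q)) : ℤ) : ℝ) := by exact_mod_cast h1
      rw [hDr, hEr]
      push_cast at h3
      exact h3
    rw [rowSum_eq] at h2
    have h4 : ∀ e : Fin B.length, ‖(if e = p then (1 : ℂ) else 0) -
        ((n : ℂ) + 2) * ∑ i, c i p ^ (n + 1) * l i p e‖ ≤
        (gn (gsub (if 0 + (e : ℕ) = p then ((2 ^ s * (Q * Q)) ^ (n + 1) * (2 ^ b * (Q * Q)), 0)
          else (0, 0)) (gsm (n + 2) (dot (A.map fun a => gpow (evq Q (z p) a) (n + 1))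
          ((B.getD e []).map (evq Q (z p)))))) : ℝ) / (Dr ^ (n + 1) * Er) := by
      intro e
      have h5 : (if e = p then (1 : ℂ) else 0) - ((n : ℂ) + 2) * ∑ i, c i p ^ (n + 1) * l i p e =
          tc (gsub (if 0 + (e : ℕ) = p then ((2 ^ s * (Q * Q)) ^ (n + 1) * (2 ^ b * (Q * Q)), 0)
          else (0, 0)) (gsm (n + 2) (dot (A.map fun a => gpow (evq Q (z p) a) (n + 1))
          ((B.getD e []).map (evq Q (z p)))))) / ((Dr ^ (n + 1) * Er : ℝ) : ℂ) := by
        rw [tc_sub, tc_sm, tc_dot _ _ _ _ (hlen e), sub_div]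
        congr 1
        · have h6 : (0 + (e : ℕ) = p) ↔ e = p := by rw [zero_add]; exact Fin.ext_iff.symm
          by_cases hep : e = p
          · rw [if_pos hep, if_pos (h6.2 hep), tc_int, hDr, hEr]
            have hne : ((2 : ℂ) ^ s * (Q * Q)) ^ (n + 1) * (2 ^ b * (Q * Q)) ≠ 0 :=
              mul_ne_zero (pow_ne_zero _ (mul_ne_zero (pow_ne_zero _ two_ne_zero)
                (mul_ne_zero hQc hQc))) (mul_ne_zero (pow_ne_zero _ two_ne_zero)
                (mul_ne_zero hQc hQc))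
            push_cast
            rw [div_self hne]
          · rw [if_neg hep, if_neg (fun h => hep (h6.1 h)), tc_zero, zero_div]
        · push_cast
          rw [mul_div_assoc, Finset.sum_div]
          congr 1
          refine Finset.sum_congr rfl fun i _ => ?_
          simp only [c, l, tc_pow]
          rw [div_pow, div_mul_div_comm]
      rw [h5, norm_div, Complex.norm_real, Real.norm_of_nonneg hDen.le]
      exact div_le_div_of_nonneg_right (tc_norm _) hDen.le
    refine (Finset.sum_le_sum fun e _ => h4 e).trans ?_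
    rw [← Finset.sum_div, div_le_iff₀ hDen]
    linarith
  · -- `hr`
    have h1 : ((4 * ((n + 2) * (n + 1) * ρ ^ n * β * β) : ℕ) : ℝ) ≤ ((2 ^ R : ℕ) : ℝ) := by
      exact_mod_cast hR
    push_cast at h1
    have e : ((n : ℝ) + 2) * (n + 1) * (ρ : ℝ) ^ n * (β * (1 / 2 ^ R)) * β =
        ((n + 2) * (n + 1) * ρ ^ n * β * β) / 2 ^ R := by ring
    rw [e, div_le_iff₀ h2R]
    linarith
  · -- `hres`
    intro p
    have h1 := (hchk p).1.1.2
    have hDen : (0 : ℝ) < Q * Dr ^ (n + 2) := by positivity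
    have h2 : (gn (gsub (gsm Q (dot (A.map fun a => gpow (evq Q (z p) a) (n + 1))
        (A.map (evq Q (z p))))) (gsm ((2 ^ s * (Q * Q)) ^ (n + 2)) (z p))) : ℝ) * (2 * 2 ^ R) ≤
        Q * Dr ^ (n + 2) := by
      have h3 : ((((gn (gsub (gsm Q (dot (A.map fun a => gpow (evq Q (z p) a) (n + 1))
        (A.map (evq Q (z p))))) (gsm ((2 ^ s * (Q * Q)) ^ (n + 2)) (z p))) : ℕ) : ℤ) *
        (2 * 2 ^ R) : ℤ) : ℝ) ≤ (((Q : ℤ) * (2 ^ s * (Q * Q)) ^ (n + 2) : ℤ) : ℝ) := by
        exact_mod_cast h1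
      rw [hDr]
      push_cast at h3
      exact h3
    have h5 : ∑ i, c i p ^ (n + 2) - tc (z p) / Q =
        tc (gsub (gsm Q (dot (A.map fun a => gpow (evq Q (z p) a) (n + 1))
        (A.map (evq Q (z p))))) (gsm ((2 ^ s * (Q * Q)) ^ (n + 2)) (z p))) /
        ((Q * Dr ^ (n + 2) : ℝ) : ℂ) := by
      rw [tc_sub, tc_sm, tc_sm, tc_dot _ _ _ _ rfl, sub_div]
      congr 1
      · push_cast
        rw [mul_div_mul_left _ _ hQc, Finset.sum_div]
        refine Finset.sum_congr rfl fun i _ => ?_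
        simp only [c, tc_pow]
        rw [div_pow, ← pow_succ]
      · rw [hDr]
        push_cast
        have hne : ((2 : ℂ) ^ s * (Q * Q)) ^ (n + 2) ≠ 0 :=
          pow_ne_zero _ (mul_ne_zero (pow_ne_zero _ two_ne_zero) (mul_ne_zero hQc hQc))
        field_simp
    rw [h5, norm_div, Complex.norm_real, Real.norm_of_nonneg hDen.le, div_le_iff₀ hDen]
    refine (tc_norm _).trans ?_
    have : (1 / 2 ^ R / 2 : ℝ) * (Q * Dr ^ (n + 2)) = (Q * Dr ^ (n + 2)) / (2 * 2 ^ R) := by
      field_simp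
    rw [this, le_div_iff₀ (by positivity)]
    exact h2

theorem rep_mono {N k k' : ℕ} (hN : N ≠ 0) (h : Rep N k) (hk : k ≤ k') : Rep N k' := by
  obtain ⟨f, hf, hs⟩ := h
  obtain ⟨d, rfl⟩ := Nat.exists_eq_add_of_le hk
  refine ⟨Fin.append f (fun _ : Fin d => 0), fun i => ?_, ?_⟩
  · refine Fin.addCases (fun i => ?_) (fun i => ?_) i
    · rw [Fin.append_left]; exact hf i
    · rw [Fin.append_right]; simp
  · rw [Fin.sum_univ_add]
    simp [hs, hN]

end Pool.Agent.H15.KN
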