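import Mathlib

/-!
# A quantitative inverse function theorem for sums of powers
-/

set_option autoImplicit false

namespace Pool.Agent.H15.KN

theorem pow_sub_le {a c : ℂ} {ρ δ : ℝ} (hρ : 0 ≤ ρ) (hδ : 0 ≤ δ) (ha : ‖a‖ ≤ ρ) (hc : ‖c‖ ≤ ρ)
    (h : ‖a - c‖ ≤ δ) (n : ℕ) : ‖a ^ (n + 1) - c ^ (n + 1)‖ ≤ (n + 1) * (ρ ^ n * δ) := by
  induction n with
  | zero => simpa using h
  | succ n ih =>
    have e : a ^ (n + 1 + 1) - c ^ (n + 1 + 1) =
        a * (a ^ (n + 1) - c ^ (n + 1)) + (a - c) * c ^ (n + 1) := by ring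
    rw [e]
    have h1 : ‖a * (a ^ (n + 1) - c ^ (n + 1))‖ ≤ ρ * ((n + 1) * (ρ ^ n * δ)) := by
      rw [norm_mul]
      exact mul_le_mul ha ih (norm_nonneg _) hρ
    have h2 : ‖(a - c) * c ^ (n + 1)‖ ≤ δ * ρ ^ (n + 1) := by
      rw [norm_mul, norm_pow]
      exact mul_le_mul h (pow_le_pow_left₀ (norm_nonneg _) hc _) (by positivity) hδ
    calc ‖a * (a ^ (n + 1) - c ^ (n + 1)) + (a - c) * c ^ (n + 1)‖
        ≤ ρ * ((n + 1) * (ρ ^ n * δ)) + δ * ρ ^ (n + 1) :=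
          (norm_add_le _ _).trans (add_le_add h1 h2)
      _ = ((n + 1 : ℕ) + 1) * (ρ ^ (n + 1) * δ) := by push_cast; ring

theorem pow_lin {a b c : ℂ} {ρ δ : ℝ} (hρ : 0 ≤ ρ) (hδ : 0 ≤ δ) (ha : ‖a‖ ≤ ρ) (hb : ‖b‖ ≤ ρ)
    (hc : ‖c‖ ≤ ρ) (hac : ‖a - c‖ ≤ δ) (hbc : ‖b - c‖ ≤ δ) (n : ℕ) :
    ‖a ^ (n + 2) - b ^ (n + 2) - (n + 2) * c ^ (n + 1) * (a - b)‖ ≤
      (n + 2) * (n + 1) * ρ ^ n * δ * ‖a - b‖ := by
  induction n with
  | zero =>
    have e : a ^ (0 + 2) - b ^ (0 + 2) - ((0 : ℕ) + 2) * c ^ (0 + 1) * (a - b) =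
        ((a - c) + (b - c)) * (a - b) := by push_cast; ring
    rw [e, norm_mul]
    have h := norm_add_le (a - c) (b - c)
    have h2 : ‖(a - c) + (b - c)‖ ≤ 2 * δ := by linarith
    calc ‖(a - c) + (b - c)‖ * ‖a - b‖ ≤ 2 * δ * ‖a - b‖ :=
          mul_le_mul_of_nonneg_right h2 (norm_nonneg _)
      _ = _ := by push_cast; ring
  | succ n ih =>
    have e : a ^ (n + 1 + 2) - b ^ (n + 1 + 2) - ((n + 1 : ℕ) + 2) * c ^ (n + 1 + 1) * (a - b) =
        a * (a ^ (n + 2) - b ^ (n + 2) - (n + 2) * c ^ (n + 1) * (a - b)) +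
        (n + 2) * (a - c) * c ^ (n + 1) * (a - b) + (b ^ (n + 1 + 1) - c ^ (n + 1 + 1)) * (a - b) := by
      push_cast; ring
    rw [e]
    have h1 : ‖a * (a ^ (n + 2) - b ^ (n + 2) - (n + 2) * c ^ (n + 1) * (a - b))‖ ≤
        ρ * ((n + 2) * (n + 1) * ρ ^ n * δ * ‖a - b‖) := by
      rw [norm_mul]
      exact mul_le_mul ha ih (norm_nonneg _) hρ
    have h2 : ‖((n : ℂ) + 2) * (a - c) * c ^ (n + 1) * (a - b)‖ ≤
        (n + 2) * δ * ρ ^ (n + 1) * ‖a - b‖ := by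
      rw [norm_mul, norm_mul, norm_mul, norm_pow]
      have e2 : ‖((n : ℂ) + 2)‖ = (n : ℝ) + 2 := by
        have : ((n : ℂ) + 2) = ((n + 2 : ℕ) : ℂ) := by push_cast; ring
        rw [this, Complex.norm_natCast]; push_cast; ring
      rw [e2]
      refine mul_le_mul_of_nonneg_right ?_ (norm_nonneg _)
      refine mul_le_mul ?_ (pow_le_pow_left₀ (norm_nonneg _) hc _) (by positivity) (by positivity)
      exact mul_le_mul_of_nonneg_left hac (by positivity)
    have h3 : ‖(b ^ (n + 1 + 1) - c ^ (n + 1 + 1)) * (a - b)‖ ≤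
        ((n + 1 : ℕ) + 1) * (ρ ^ (n + 1) * δ) * ‖a - b‖ := by
      rw [norm_mul]
      exact mul_le_mul_of_nonneg_right (pow_sub_le hρ hδ hb hc hbc (n + 1)) (norm_nonneg _)
    refine (norm_add_le _ _).trans ((add_le_add ((norm_add_le _ _).trans (add_le_add h1 h2))
      h3).trans (le_of_eq ?_))
    push_cast; ring

/-- Newton's method with a fixed approximate inverse. -/
theorem nk {k m n : ℕ} (c : Fin k → Fin m → ℂ) (l : Fin k → Fin m → Fin m → ℂ) (t : Fin m → ℂ)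
    (ρ β r : ℝ) (hr0 : 0 < r) (hβ0 : 0 ≤ β) (hρ : 0 ≤ ρ)
    (hc : ∀ i p, ‖c i p‖ + β * r ≤ ρ)
    (hβ : ∀ p, ∑ i, ∑ e, ‖l i p e‖ ≤ β)
    (hE : ∀ p, ∑ e, ‖(if e = p then (1 : ℂ) else 0) - (n + 2) * ∑ i, c i p ^ (n + 1) * l i p e‖
      ≤ 1 / 4)
    (hr : (n + 2) * (n + 1) * ρ ^ n * (β * r) * β ≤ 1 / 4)
    (hres : ∀ p, ‖∑ i, c i p ^ (n + 2) - t p‖ ≤ r / 2) :
    ∃ u : Fin m → ℂ, ∀ p, ∑ i, (c i p + ∑ e, u e * l i p e) ^ (n + 2) = t p := by
  classical
  let φ : (Fin m → ℂ) → Fin k → Fin m → ℂ := fun u i p => c i p + ∑ e, u e * l i p e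
  let T : (Fin m → ℂ) → (Fin m → ℂ) := fun u p => u p - (∑ i, φ u i p ^ (n + 2) - t p)
  have hlin : ∀ (w : Fin m → ℂ) (i : Fin k) (p : Fin m), ‖∑ e, w e * l i p e‖ ≤
      ‖w‖ * ∑ e, ‖l i p e‖ := by
    intro w i p
    refine (norm_sum_le _ _).trans ?_
    rw [Finset.mul_sum]
    refine Finset.sum_le_sum fun e _ => ?_
    rw [norm_mul]
    exact mul_le_mul_of_nonneg_right (norm_le_pi_norm w e) (norm_nonneg _)
  have hli : ∀ i p, ∑ e, ‖l i p e‖ ≤ β := fun i p =>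
    (Finset.single_le_sum (f := fun i => ∑ e, ‖l i p e‖)
      (fun i _ => Finset.sum_nonneg fun e _ => norm_nonneg _) (Finset.mem_univ i)).trans (hβ p)
  have hφ : ∀ u : Fin m → ℂ, ‖u‖ ≤ r → ∀ i p, ‖φ u i p - c i p‖ ≤ β * r := by
    intro u hu i p
    have e : φ u i p - c i p = ∑ e, u e * l i p e := by simp [φ]
    rw [e]
    refine (hlin u i p).trans ?_
    rw [mul_comm]
    exact mul_le_mul (hli i p) hu (norm_nonneg _) hβ0
  have hφρ : ∀ u : Fin m → ℂ, ‖u‖ ≤ r → ∀ i p, ‖φ u i p‖ ≤ ρ := by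
    intro u hu i p
    have e : φ u i p = c i p + (φ u i p - c i p) := by ring
    rw [e]
    have := norm_add_le (c i p) (φ u i p - c i p)
    have h2 := hφ u hu i p
    have h3 := hc i p
    linarith
  have hcρ : ∀ i p, ‖c i p‖ ≤ ρ := fun i p => by
    have h3 := hc i p
    have : 0 ≤ β * r := mul_nonneg hβ0 hr0.le
    linarith
  have hT : ∀ u v : Fin m → ℂ, ‖u‖ ≤ r → ‖v‖ ≤ r → ‖T u - T v‖ ≤ 1 / 2 * ‖u - v‖ := by
    intro u v hu hv
    rw [pi_norm_le_iff_of_nonneg (by positivity)]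
    intro p
    have e1 : (T u - T v) p = ∑ e, ((if e = p then (1 : ℂ) else 0) -
        (n + 2) * ∑ i, c i p ^ (n + 1) * l i p e) * (u - v) e -
        ∑ i, (φ u i p ^ (n + 2) - φ v i p ^ (n + 2) -
          (n + 2) * c i p ^ (n + 1) * (φ u i p - φ v i p)) := by
      have e2 : ∑ e, ((if e = p then (1 : ℂ) else 0) -
          (n + 2) * ∑ i, c i p ^ (n + 1) * l i p e) * (u - v) e =
          (u - v) p - ∑ i, (n + 2) * c i p ^ (n + 1) * (φ u i p - φ v i p) := by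
        have e3 : ∀ i, φ u i p - φ v i p = ∑ e, (u - v) e * l i p e := by
          intro i
          simp only [φ, Pi.sub_apply]
          rw [add_sub_add_left_eq_sub, ← Finset.sum_sub_distrib]
          exact Finset.sum_congr rfl fun e _ => by ring
        simp only [sub_mul, Finset.sum_sub_distrib, ite_mul, one_mul, zero_mul,
          Finset.sum_ite_eq', Finset.mem_univ, if_true]
        congr 1
        simp only [e3, Finset.mul_sum, Finset.sum_mul]
        rw [Finset.sum_comm]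
        exact Finset.sum_congr rfl fun i _ => Finset.sum_congr rfl fun e _ => by ring
      rw [e2]
      simp only [T, Pi.sub_apply, Finset.sum_sub_distrib]
      ring
    rw [e1]
    refine (norm_sub_le _ _).trans ?_
    have hA : ‖∑ e, ((if e = p then (1 : ℂ) else 0) -
        (n + 2) * ∑ i, c i p ^ (n + 1) * l i p e) * (u - v) e‖ ≤ 1 / 4 * ‖u - v‖ := by
      refine (norm_sum_le _ _).trans ?_
      refine le_trans ?_ (mul_le_mul_of_nonneg_right (hE p) (norm_nonneg _))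
      rw [Finset.sum_mul]
      refine Finset.sum_le_sum fun e _ => ?_
      rw [norm_mul]
      exact mul_le_mul_of_nonneg_left (norm_le_pi_norm (u - v) e) (norm_nonneg _)
    have hB : ‖∑ i, (φ u i p ^ (n + 2) - φ v i p ^ (n + 2) -
          (n + 2) * c i p ^ (n + 1) * (φ u i p - φ v i p))‖ ≤ 1 / 4 * ‖u - v‖ := by
      refine (norm_sum_le _ _).trans ?_
      have h1 : ∀ i ∈ Finset.univ, ‖φ u i p ^ (n + 2) - φ v i p ^ (n + 2) -
          (n + 2) * c i p ^ (n + 1) * (φ u i p - φ v i p)‖ ≤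
          (n + 2) * (n + 1) * ρ ^ n * (β * r) * (‖u - v‖ * ∑ e, ‖l i p e‖) := by
        intro i _
        refine (pow_lin hρ (mul_nonneg hβ0 hr0.le) (hφρ u hu i p) (hφρ v hv i p) (hcρ i p)
          (hφ u hu i p) (hφ v hv i p) n).trans ?_
        refine mul_le_mul_of_nonneg_left ?_ (by positivity)
        have e3 : φ u i p - φ v i p = ∑ e, (u - v) e * l i p e := by
          simp only [φ, Pi.sub_apply]
          rw [add_sub_add_left_eq_sub, ← Finset.sum_sub_distrib]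
          exact Finset.sum_congr rfl fun e _ => by ring
        rw [e3]
        exact hlin _ i p
      refine (Finset.sum_le_sum h1).trans ?_
      rw [← Finset.mul_sum, ← Finset.mul_sum]
      have h2 : (n + 2) * (n + 1) * ρ ^ n * (β * r) * (‖u - v‖ * ∑ i, ∑ e, ‖l i p e‖) ≤
          (n + 2) * (n + 1) * ρ ^ n * (β * r) * (‖u - v‖ * β) :=
        mul_le_mul_of_nonneg_left (mul_le_mul_of_nonneg_left (hβ p) (norm_nonneg _))
          (by positivity)
      refine h2.trans ?_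
      calc (n + 2) * (n + 1) * ρ ^ n * (β * r) * (‖u - v‖ * β)
          = ((n + 2) * (n + 1) * ρ ^ n * (β * r) * β) * ‖u - v‖ := by ring
        _ ≤ _ := mul_le_mul_of_nonneg_right hr (norm_nonneg _)
    linarith
  have hT0 : ‖T 0‖ ≤ r / 2 := by
    rw [pi_norm_le_iff_of_nonneg (by positivity)]
    intro p
    have e : T 0 p = -(∑ i, c i p ^ (n + 2) - t p) := by simp [T, φ]
    rw [e, norm_neg]
    exact hres p
  have hmaps : Set.MapsTo T (Metric.closedBall 0 r) (Metric.closedBall 0 r) := by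
    intro u hu
    rw [mem_closedBall_zero_iff] at hu ⊢
    have h1 := hT u 0 hu (by simpa using hr0.le)
    have e : T u = (T u - T 0) + T 0 := by abel
    rw [e]
    have h2 := norm_add_le (T u - T 0) (T 0)
    rw [sub_zero] at h1
    linarith
  have hcontr : ContractingWith (1 / 2 : NNReal) (hmaps.restrict T _ _) := by
    refine ⟨by norm_num [← NNReal.coe_lt_coe], LipschitzWith.of_dist_le_mul ?_⟩
    rintro ⟨u, hu⟩ ⟨v, hv⟩
    rw [Subtype.dist_eq, Subtype.dist_eq, dist_eq_norm, dist_eq_norm]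
    have := hT u v (by simpa using hu) (by simpa using hv)
    simpa using this
  obtain ⟨u, hu, hfix, -⟩ := hcontr.exists_fixedPoint' (x := 0)
    (Metric.isClosed_closedBall.isComplete) hmaps (by simpa using hr0.le) (edist_ne_top _ _)
  refine ⟨u, fun p => ?_⟩
  have h := congrFun hfix p
  have h2 : u p - (∑ i, φ u i p ^ (n + 2) - t p) = u p := h
  have h3 : ∑ i, φ u i p ^ (n + 2) - t p = 0 := by
    have := sub_eq_self.mp h2
    exact this
  exact sub_eq_zero.mp h3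

end Pool.Agent.H15.KN
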